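import Pool.Agent.H988.CD.E

/-!
# Random conductances: no wave operators, no homogenized asymptotics

`H_w = - div w grad` on `ℓ²(ℤ^d)`, `w_e` iid with any law on `[a, b]`, `a > 0`, which is not a point
mass, for instance a law on two points. `G t = e^{-itK}` is a translation invariant dynamics (`K`
selfadjoint, bounded or not, and commuting with the translations) with purely absolutely
continuous spectrum. Examples are the dynamics of constant conductances `c > 0`, for instance the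
effective conductance of the medium.

For all square integrable random states `ψ` the averages `T⁻¹ ∫_0^T e^{isK} e^{-isH_w} ψ ds` and
`T⁻¹ ∫_0^T e^{isH_w} e^{-isK} ψ ds` tend to zero in mean square. So all wave operators vanish, even
in the sense of Cesàro limits: for large times no part of any state moves like a wave
in a homogeneous medium. This is necessary for localization at all energies.

If the law has a density then this holds for all translation invariant dynamics, of any spectral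
type, and the mean wave decays: `T⁻¹ ∫_0^T ‖𝔼 e^{-itH_w} ψ‖² dt → 0` for all `ψ`.
-/

set_option autoImplicit false

open MeasureTheory Filter Topology
open scoped BigOperators ENNReal NNReal InnerProductSpace ComplexConjugate

namespace Pool.Agent.Results.MP_938f0c_mp.NoWaveOperators

/-- `ℓ²(ℤ^d)` -/
abbrev L2 (d : ℕ) : Type := lp (fun _ : Fin d → ℤ => ℂ) 2

/-- the nearest-neighbour edges of `ℤ^d`: `(x, i)` is the edge between `x` and `x + e_i` -/
abbrev Edge (d : ℕ) : Type := (Fin d → ℤ) × Fin d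

/-- the operator of the problem, `(H_w f)(x) = ∑_{|x-y|=1} w_{x,y} (f(x) - f(y))` (the neighbours
`y` of `x` are `x ± e_i`) -/
noncomputable def act {d : ℕ} (w : Edge d → ℝ) (f : (Fin d → ℤ) → ℂ) (x : Fin d → ℤ) : ℂ :=
  ∑ i : Fin d, ((w (x, i) : ℂ) * (f x - f (x + Pi.single i 1)) +
    (w (x - Pi.single i 1, i) : ℂ) * (f x - f (x - Pi.single i 1)))

/-- `U t = e^{-itH_w}`: `H_w` is a bounded operator `H` of `ℓ²(ℤ^d)`, and `U 0 = 1`,
`∂_t (U_t u) = -i H U_t u` in the norm of `ℓ²(ℤ^d)` -/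
def IsPropagator {d : ℕ} (w : Edge d → ℝ) (U : ℝ → L2 d → L2 d) : Prop :=
  ∃ H : L2 d →L[ℂ] L2 d, (∀ u x, (H u) x = act w (fun y => u y) x) ∧
    ∀ u, U 0 u = u ∧ ∀ t, HasDerivAt (fun s => U s u) (-Complex.I • H (U t u)) t

/-- the law of iid conductances with law `ν` -/
noncomputable def iid (d : ℕ) (ν : Measure ℝ) : Measure (Edge d → ℝ) :=
  Measure.infinitePi fun _ => ν

/-- translation invariant dynamics, `G t = e^{-itK}` with `K` (bounded or unbounded) selfadjoint
and translation invariant: a strongly continuous one-parameter group of unitary operators which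
commute with the translations -/
structure IsInvariantDynamics {d : ℕ} (G : ℝ → L2 d → L2 d) : Prop where
  linear : ∀ (t : ℝ) (c : ℂ) (u w : L2 d), G t (c • u + w) = c • G t u + G t w
  norm : ∀ t u, ‖G t u‖ = ‖u‖
  zero : ∀ u, G 0 u = u
  add : ∀ s t u, G (s + t) u = G s (G t u)
  cont : ∀ u, Continuous fun t => G t u
  invariant : ∀ (z : Fin d → ℤ) (t : ℝ) (u w : L2 d), (∀ x, w x = u (x + z)) →
    ∀ x, (G t w) x = (G t u) (x + z)

/-- `m` is the spectral measure of `u`: the finite measure with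
`⟨u, e^{-itK} u⟩ = ∫ e^{-itE} dm(E)` -/
def IsSpectral {d : ℕ} (G : ℝ → L2 d → L2 d) (u : L2 d) (m : Measure ℝ) : Prop :=
  IsFiniteMeasure m ∧
    ∀ t : ℝ, ⟪u, G t u⟫_ℂ = ∫ E : ℝ, Complex.exp (-(Complex.I * t * E)) ∂m

/-- the spectral measure of `u` is absolutely continuous -/
def IsAC {d : ℕ} (G : ℝ → L2 d → L2 d) (u : L2 d) : Prop :=
  ∃ m : Measure ℝ, IsSpectral G u m ∧ m ≪ volume

/-- `T⁻¹ ∫_0^T A(-s) B(s) u ds` -/
noncomputable def comparison {d : ℕ} (A B : ℝ → L2 d → L2 d) (T : ℝ) (u : L2 d) : L2 d :=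
  ((T : ℂ)⁻¹) • ∫ s in (0 : ℝ)..T, A (-s) (B s u)

open Pool.Agent.H5R2 Pool.Agent.H988.DJ Pool.Agent.H988.CD

theorem ae_mem {d : ℕ} {a b : ℝ} {ν : Measure ℝ} [IsProbabilityMeasure ν]
    (h : ∀ᵐ v ∂ν, v ∈ Set.Icc a b) : ∀ᵐ w ∂(iid d ν), ∀ e, w e ∈ Set.Icc a b := by
  rw [ae_all_iff]
  intro e
  exact (measurePreserving_eval_infinitePi (fun _ : Edge d => ν) e).quasiMeasurePreserving.ae h

theorem op_apply {d : ℕ} {a b : ℝ} (ha : 0 < a) (hab : a ≤ b) {w : Edge d → ℝ}
    (hw : ∀ e, w e ∈ Set.Icc a b) (u : L2 d) (x : Fin d → ℤ) :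
    (Pool.Agent.TH980.CN.HC a b w u) x = act w (fun y => u y) x := by
  rw [Pool.Agent.TH980.CN.HC_apply ha hab]
  unfold act
  refine Finset.sum_congr rfl fun i _ => ?_
  rw [Pool.Agent.TH980.CN.cc_eq (hw _), Pool.Agent.TH980.CN.cc_eq (hw _)]

theorem prop_wc {d : ℕ} {a b : ℝ} (ha : 0 < a) (hab : a ≤ b) {w : Edge d → ℝ}
    (hw : ∀ e, w e ∈ Set.Icc a b) : IsPropagator w fun t u => (wc ha hab w).U t u :=
  ⟨Pool.Agent.TH980.CN.HC a b w, op_apply ha hab hw, fun u => ⟨(wc ha hab w).zero' u, fun t =>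
    Pool.Agent.Y662.ERG.Ex_deriv _ t u⟩⟩

theorem prop_eq {d : ℕ} {a b : ℝ} (ha : 0 < a) (hab : a ≤ b) {w : Edge d → ℝ}
    (hw : ∀ e, w e ∈ Set.Icc a b) {U : ℝ → L2 d → L2 d} (hU : IsPropagator w U) (t : ℝ)
    (u : L2 d) : U t u = (wc ha hab w).U t u := by
  obtain ⟨H, hH, h⟩ := hU
  have e : H = Pool.Agent.TH980.CN.HC a b w := by
    ext1 f
    ext x
    rw [hH, op_apply ha hab hw]
  subst e
  have h1 := Ex_unique (h u).2 t
  rw [(h u).1] at h1
  exact h1

/-- the group as a family of bounded operators -/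
noncomputable def toUG {d : ℕ} (G : ℝ → L2 d → L2 d) (hG : IsInvariantDynamics G) :
    NB.UG (NB.L2 (NB.Site d)) where
  U t := LinearMap.mkContinuous
    { toFun := G t
      map_add' := fun u w => by
        have h := hG.linear t 1 u w
        rwa [one_smul, one_smul] at h
      map_smul' := fun c u => by
        have h0 : G t 0 = 0 := norm_eq_zero.1 (by rw [hG.norm, norm_zero])
        have h := hG.linear t c u 0
        rwa [add_zero, h0, add_zero] at h } 1 fun u => by
      rw [one_mul]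
      exact (hG.norm t u).le
  zero' := hG.zero
  add' := hG.add
  norm' := hG.norm
  cont' := hG.cont

/-- Let `d ≥ 1`, let `0 < a ≤ b` and let `ν` be a law on `[a, b]` which is not a point mass. Almost
surely the unitary group of `H_w` exists and is unique. The dynamics of constant conductances
`c > 0` is translation invariant with purely absolutely continuous spectrum. Every dynamics `G`
of this kind (any translation invariant dynamics, if the law has a density) and the dynamics `U` of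
`H_w` have vanishing averages, in both orders. If the law has a density then the mean wave decays. -/
theorem result (d : ℕ) (hd : 1 ≤ d) (a b : ℝ) (ha : 0 < a) (ν : Measure ℝ)
    [IsProbabilityMeasure ν] (hab : ν (Set.Icc a b) = 1) (hν : ∀ c : ℝ, ν {c} ≠ 1) :
    (∀ᵐ w ∂(iid d ν), ∃! U : ℝ → L2 d → L2 d, IsPropagator w U) ∧
    (∀ c : ℝ, 0 < c → ∃ G : ℝ → L2 d → L2 d, IsPropagator (fun _ => c) G ∧
      IsInvariantDynamics G ∧ ∀ u, IsAC G u) ∧
    ∀ U : (Edge d → ℝ) → ℝ → L2 d → L2 d, (∀ᵐ w ∂(iid d ν), IsPropagator w (U w)) →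
      (ν ≪ volume → ∀ ψ : L2 d, Tendsto (fun T : ℝ => T⁻¹ * ∫ t in (0 : ℝ)..T,
        ‖∫ w, U w t ψ ∂(iid d ν)‖ ^ 2) atTop (𝓝 0)) ∧
      ∀ G : ℝ → L2 d → L2 d, IsInvariantDynamics G → ((∀ u, IsAC G u) ∨ ν ≪ volume) →
      ∀ ψ : (Edge d → ℝ) → L2 d, MemLp ψ 2 (iid d ν) →
        Tendsto (fun T : ℝ => ∫⁻ w, ‖comparison G (U w) T (ψ w)‖ₑ ^ 2 ∂(iid d ν)) atTop (𝓝 0) ∧
        Tendsto (fun T : ℝ => ∫⁻ w, ‖comparison (U w) G T (ψ w)‖ₑ ^ 2 ∂(iid d ν)) atTop
          (𝓝 0) := by
  have hν1 : ∀ᵐ v ∂ν, v ∈ Set.Icc a b := by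
    rw [ae_iff]
    exact (prob_compl_eq_zero_iff measurableSet_Icc).2 hab
  have hab' : a ≤ b := by
    by_contra h
    rw [Set.Icc_eq_empty h, measure_empty] at hab
    exact zero_ne_one hab
  refine ⟨?_, fun c hc => ?_, fun U hU => ⟨fun hν' ψ => ?_, fun G hG hac ψ hψ => ?_⟩⟩
  · filter_upwards [ae_mem hν1] with w hw
    refine ⟨fun t u => (wc ha hab' w).U t u, prop_wc ha hab' hw, fun U hU => ?_⟩
    funext t u
    exact prop_eq ha hab' hw hU t u
  · have hw : ∀ e : Edge d, (fun _ : Edge d => c) e ∈ Set.Icc c c := fun e => ⟨le_rfl, le_rfl⟩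
    set W := wc (d := d) hc (le_refl c) fun _ => c with hW
    refine ⟨fun t u => W.U t u, prop_wc hc le_rfl hw, ⟨fun t c u w => ?_, W.norm', W.zero', W.add',
      W.cont', fun z t u w hwu x => ?_⟩, fun u => ⟨Pool.Agent.K7.H83.SI.sm W u,
      ⟨inferInstance, fun t => Pool.Agent.K7.H83.SI.sm_inner _ u t⟩, wc_ac hd hc u⟩⟩
    · rw [map_add, map_smul]
    · obtain ⟨S, hS⟩ := (NB.t_OPS d).1 z
      have hSw : S u = w := by
        ext y
        rw [hS, hwu]
      have h1 := (dyn_wc (d := d) hc (le_refl c)).cov z S hS (fun _ => c) t u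
      have h2 : W.U t (S u) = S (W.U t u) := h1
      rw [← hSw, h2, hS]
  · have hae : ∀ᵐ w ∂(iid d ν), ∀ t u, U w t u = (wc ha hab' w).U t u := by
      filter_upwards [ae_mem hν1, hU] with w hw hUw t u
      exact prop_eq ha hab' hw hUw t u
    refine (mean_waveE hd ha hab' hν1 hν' ψ).congr fun T => ?_
    congr 1
    refine intervalIntegral.integral_congr fun t _ => ?_
    show ‖_‖ ^ 2 = ‖_‖ ^ 2
    congr 2
    refine integral_congr_ae ?_
    filter_upwards [hae] with w hw
    exact (hw t ψ).symm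
  · set R := toUG G hG with hR
    have hRG : ∀ t u, R.U t u = G t u := fun t u => rfl
    have hinv : ∀ (z : NB.Site d) (S : NB.L2 (NB.Site d) →L[ℂ] NB.L2 (NB.Site d)),
        NB.IsShift z S → ∀ t φ, R.U t (S φ) = S (R.U t φ) := by
      intro z S hS t φ
      ext x
      rw [hRG, hRG, hG.invariant z t φ (S φ) (fun x => hS φ x) x, hS]
    have h : Tendsto (fun T : ℝ => ∫⁻ w, ‖avT R (wc ha hab' w) T (ψ w)‖ₑ ^ 2
          ∂(Pool.Agent.TH980.IM.PR.PP (Edge d) ν)) atTop (𝓝 0) ∧
        Tendsto (fun T : ℝ => ∫⁻ w, ‖avT (wc ha hab' w) R T (ψ w)‖ₑ ^ 2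
          ∂(Pool.Agent.TH980.IM.PR.PP (Edge d) ν)) atTop (𝓝 0) := by
      rcases hac with hac | hac
      · have hsm : ∀ φ, Pool.Agent.K7.H83.SI.sm R φ ≪ volume := by
          intro φ
          obtain ⟨m, ⟨hm1, hm2⟩, hm3⟩ := hac φ
          rw [Pool.Agent.K7.H83.SI.sm_eq (W := R) (u := φ) (m := m) ⟨hm1, fun t => hm2 t⟩]
          exact hm3
        exact cd_disjoint hd ha hab' hinv hsm hν1 hν (ψ := ψ) hψ
      · exact cd_disjoint' hd ha hab' hinv hν1 hac (ψ := ψ) hψ
    have hae : ∀ᵐ w ∂(iid d ν), ∀ t u, U w t u = (wc ha hab' w).U t u := by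
      filter_upwards [ae_mem hν1, hU] with w hw hUw t u
      exact prop_eq ha hab' hw hUw t u
    refine ⟨h.1.congr fun T => ?_, h.2.congr fun T => ?_⟩
    · refine lintegral_congr_ae ?_
      filter_upwards [hae] with w hw
      unfold comparison
      simp only [hw]
      rfl
    · refine lintegral_congr_ae ?_
      filter_upwards [hae] with w hw
      unfold comparison
      simp only [hw]
      rfl

end Pool.Agent.Results.MP_938f0c_mp.NoWaveOperators
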